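import Pool.Agent.H75.PRL.S6

/-!
# The Poonen-Rains law: small Selmer groups and the group of points
-/

set_option autoImplicit false

namespace Pool.PRL

open Polynomial Matrix Pool.AVR Pool.AVS Pool.RZ

namespace RKP

theorem irr_mono {F : Type} [Field F] {n m : ℕ} (h : n ≤ m) : Irr F n ⊆ Irr F m := by
  intro f hf
  refine ⟨⟨hf.1.1.trans ?_, hf.1.2.1.trans ?_, hf.1.2.2.trans ?_⟩, hf.2⟩ <;> omega

theorem fin_of_rank {G : Type} [AddCommGroup G] (hG : AddGroup.FG G)
    (h : Module.finrank ℤ G = 0) : Finite G := by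
  have hf : Module.Finite ℤ G := Module.Finite.iff_addGroup_fg.2 hG
  have ht : Module.IsTorsion ℤ G := Module.finrank_eq_zero_iff_isTorsion.1 h
  exact Module.finite_of_fg_torsion G ht

end RKP

theorem rkp (hEMB : EMBStmt) (hMWL : MWLStmt) (hRNK : RNKStmt) (hST1 : ST1Stmt) : RKPStmt := by
  classical
  intro F _ _ h2 n g hg
  have hM2 : Finite (Mod2 (EK g)) :=
    (hST1 F h2 (max n 1) (le_max_right _ _)).2.1 g (RKP.irr_mono (le_max_left _ _) hg)
  have hFG : AddGroup.FG (EK g) := hMWL F h2 g hg.2.2 hM2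
  have key : ∀ k : ℕ, 0 < k → (Sel g).ncard = k → 2 ^ rk g ≤ k := by
    intro k hk hc
    have hfin : (Sel g).Finite := Set.finite_of_ncard_pos (by omega)
    have h1 := hEMB F h2 n g hg hfin
    have h3 := (hRNK (EK g) hFG).2.1
    rw [hc] at h1
    exact h3.trans h1
  refine ⟨fun hc => ?_, fun hc => ⟨hFG, ?_⟩⟩
  · have h1 := key 1 one_pos hc
    have h3 : rk g = 0 := by
      by_contra hne
      have : 2 ^ 1 ≤ 2 ^ rk g := Nat.pow_le_pow_right (by norm_num) (Nat.one_le_iff_ne_zero.2 hne)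
      omega
    exact RKP.fin_of_rank hFG h3
  · have h1 : 2 ^ rk g ≤ 2 := by
      rcases hc with hc | hc
      · exact (key 1 one_pos hc).trans one_le_two
      · exact key 2 two_pos hc
    by_contra hlt
    have h3 : 2 ^ 2 ≤ 2 ^ rk g := Nat.pow_le_pow_right (by norm_num) (by omega)
    omega

end Pool.PRL
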