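import Pool.Agent.H75.PRL.S2
import Pool.Agent.H5.AVS.RIP

/-!
# The Poonen-Rains law: a smooth point modulo the uniformizer
-/

set_option autoImplicit false

namespace Pool.PRL

open Polynomial Matrix Pool.AVR Pool.AVS Pool.RZ

namespace SMP

section maps

variable {R S : Type} [CommRing R] [CommRing S] (φ : R →+* S)

theorem map_AA : (AA R).map φ = AA S := by
  ext i j
  fin_cases i <;> fin_cases j <;> simp [AA]

theorem map_dB (B : Matrix (Fin 3) (Fin 3) R) : φ (dB B) = dB (B.map φ) := by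
  have h3 : φ (ic B) = ic (B.map φ) := by
    unfold ic
    rw [RingHom.map_det]
    rfl
  have e2 : φ 2 = 2 := map_ofNat φ 2
  have e4 : φ 4 = 4 := map_ofNat φ 4
  have e18 : φ 18 = 18 := map_ofNat φ 18
  have e27 : φ 27 = 27 := map_ofNat φ 27
  have h1 : φ (ia B) = ia (B.map φ) := by
    simp [ia, e2]
  have h2 : φ (ib B) = ib (B.map φ) := by
    simp [ib, e2]
  unfold dB disc
  rw [← h1, ← h2, ← h3]
  simp [e4, e18, e27]

theorem map_mulVec (B : Matrix (Fin 3) (Fin 3) R) (z : Fin 3 → R) (i : Fin 3) :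
    φ ((B *ᵥ z) i) = (B.map φ *ᵥ fun i => φ (z i)) i := by
  simp [Matrix.mulVec, dotProduct, Fin.sum_univ_three]

theorem map_bil (B : Matrix (Fin 3) (Fin 3) R) (z : Fin 3 → R) :
    φ (bil B z z) = bil (B.map φ) (fun i => φ (z i)) (fun i => φ (z i)) := by
  simp [bil, Matrix.mulVec, dotProduct, Fin.sum_univ_three]

end maps

/-- The key step. -/
theorem core {F : Type} [Field F] [Finite F] (h2 : (2 : F) ≠ 0) (hLDE : LDEStmt) {L : Type}
    [Field L] {O : ValuationSubring L} {π : L} (hL : Loc L O π) (P : F[X]) (hPm : P.Monic)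
    (hP : Irreducible P) (e : ON O 2 ≃+* AdjoinRoot (P ^ 2)) (B : Matrix (Fin 3) (Fin 3) L)
    (hB : Bᵀ = B) (hBO : MI (O : Set L) B) (hd : dB B / π ^ 2 ∉ O) :
    ∃ (z : Fin 3 → L) (w : L), Smo (O : Set L) π (AA L) B z w := by
  classical
  set φ : O →+* AdjoinRoot (P ^ 2) :=
    (e : ON O 2 →+* AdjoinRoot (P ^ 2)).comp (Ideal.Quotient.mk _) with hφ
  have hφs : Function.Surjective φ := fun y => by
    obtain ⟨x, hx⟩ := Ideal.Quotient.mk_surjective (e.symm y)
    exact ⟨x, by rw [hφ, RingHom.comp_apply, hx]; exact e.apply_symm_apply y⟩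
  have hφ0 : ∀ x : O, φ x = 0 ↔ (x : L) / π ^ 2 ∈ O := by
    intro x
    rw [← RIP.mem_max_pow hL 2 x, ← Ideal.Quotient.eq_zero_iff_mem, hφ, RingHom.comp_apply]
    exact map_eq_zero_iff _ e.injective
  have hlift : ∀ x : O, ∃ p : F[X], φ x = AdjoinRoot.mk (P ^ 2) p := fun x => by
    obtain ⟨p, hp⟩ := AdjoinRoot.mk_surjective (φ x)
    exact ⟨p, hp.symm⟩
  have key : ∀ (x : O) (p : F[X]), φ x = AdjoinRoot.mk (P ^ 2) p →
      ((x : L) / π ∈ O ↔ AdjoinRoot.mk P p = 0) := by
    intro x p hx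
    have h1 : φ (x ^ 2) = 0 ↔ P ∣ p := by
      rw [map_pow, hx, ← map_pow, AdjoinRoot.mk_eq_zero]
      constructor
      · intro h
        exact hP.prime.dvd_of_dvd_pow ((dvd_pow_self P two_ne_zero).trans h)
      · exact fun h => pow_dvd_pow_of_dvd h 2
    rw [AdjoinRoot.mk_eq_zero, ← h1, hφ0]
    have h3 : ((x ^ 2 : O) : L) / π ^ 2 = ((x : L) / π) ^ 2 := by
      rw [div_pow]
      rfl
    rw [h3]
    constructor
    · exact fun h => pow_mem h 2
    · intro h
      rcases O.mem_or_inv_mem ((x : L) / π) with h4 | h4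
      · exact h4
      · by_cases h5 : (x : L) / π = 0
        · rw [h5]
          exact zero_mem _
        · have h6 : (x : L) / π = ((x : L) / π) ^ 2 * ((x : L) / π)⁻¹ := by
            field_simp
          rw [h6]
          exact mul_mem h h4
  -- lift
  set Bo : Matrix (Fin 3) (Fin 3) O := Matrix.of fun i j => ⟨B i j, hBO i j⟩ with hBo
  have hBov : ∀ i j, ((Bo i j : O) : L) = B i j := fun i j => rfl
  have hBos : ∀ i j, Bo i j = Bo j i := fun i j => by
    apply Subtype.ext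
    rw [hBov, hBov]
    exact congrFun (congrFun hB j) i
  set B' : Matrix (Fin 3) (Fin 3) F[X] := Matrix.of fun i j => (hlift (Bo i j)).choose with hB'
  have hB's : ∀ i j, φ (Bo i j) = AdjoinRoot.mk (P ^ 2) (B' i j) := fun i j =>
    (hlift (Bo i j)).choose_spec
  have hB't : B'ᵀ = B' := by
    refine Matrix.ext fun i j => ?_
    show (hlift (Bo j i)).choose = (hlift (Bo i j)).choose
    rw [hBos j i]
  have hmapB : Bo.map φ = B'.map (AdjoinRoot.mk (P ^ 2)) := by
    ext i j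
    exact hB's i j
  have hBoL : Bo.map (O.subtype) = B := by
    ext i j
    rfl
  have hdB : ¬ P ^ 2 ∣ dB B' := by
    intro hdv
    apply hd
    have h1 : φ (dB Bo) = 0 := by
      rw [map_dB, hmapB, ← map_dB, AdjoinRoot.mk_eq_zero]
      exact hdv
    have h2 := (hφ0 _).1 h1
    have h3 : ((dB Bo : O) : L) = dB B := by
      have := map_dB O.subtype Bo
      rw [hBoL] at this
      exact this
    rwa [h3] at h2
  obtain ⟨⟨zb, wb⟩, hz0, hz1, hz2, hz3⟩ := (hLDE F h2 P hPm hP).2.1 B' hB't hdB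
  simp only at hz0 hz1 hz2 hz3
  have hzl : ∀ i, ∃ p : F[X], AdjoinRoot.mk P p = zb i := fun i => AdjoinRoot.mk_surjective _
  choose zp hzp using hzl
  obtain ⟨wp, hwp⟩ := AdjoinRoot.mk_surjective (g := P) wb
  have hzo : ∀ i, ∃ x : O, φ x = AdjoinRoot.mk (P ^ 2) (zp i) := fun i => hφs _
  choose zo hzo using hzo
  obtain ⟨wo, hwo⟩ := hφs (AdjoinRoot.mk (P ^ 2) wp)
  have hzb : (fun i => AdjoinRoot.mk P (zp i)) = zb := funext hzp
  refine ⟨fun i => (zo i : L), (wo : L), fun i => (zo i).2, wo.2, ?_, ?_, ?_, ?_⟩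
  · by_contra hcon
    push Not at hcon
    apply hz0
    funext i
    have h1 := (key (zo i) (zp i) (hzo i)).1 (hcon i)
    rw [hzp i] at h1
    exact h1
  · have h1 : ((bil (AA O) zo zo : O) : L) = bil (AA L) (fun i => (zo i : L))
        (fun i => (zo i : L)) := by
      have := map_bil O.subtype (AA O) zo
      rw [map_AA] at this
      exact this
    have h4 : φ (bil (AA O) zo zo) = AdjoinRoot.mk (P ^ 2) (bil (AA F[X]) zp zp) := by
      rw [map_bil, map_bil, map_AA, map_AA]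
      simp only [hzo]
    have h5 := (key _ _ h4).2 (by
      rw [map_bil, map_AA, hzb]
      exact hz1)
    rw [h1] at h5
    exact h5
  · have h1 : ((wo ^ 2 + bil Bo zo zo : O) : L) = (wo : L) ^ 2 + bil B (fun i => (zo i : L))
        (fun i => (zo i : L)) := by
      have := map_bil O.subtype Bo zo
      rw [hBoL] at this
      have h6 : ((bil Bo zo zo : O) : L) = bil B (fun i => (zo i : L))
        (fun i => (zo i : L)) := this
      rw [← h6]
      rfl
    have h4 : φ (wo ^ 2 + bil Bo zo zo) = AdjoinRoot.mk (P ^ 2) (wp ^ 2 + bil B' zp zp) := by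
      rw [map_add, map_add, map_pow, map_pow, map_bil, map_bil, hmapB, hwo]
      simp only [hzo]
    have h5 := (key _ _ h4).2 (by
      rw [map_add, map_pow, map_bil, hzb, hwp]
      exact hz2)
    rw [h1] at h5
    exact h5
  · rintro ⟨hw, μ, hμ, hcon⟩
    apply hz3
    have hw0 := (key wo wp hwo).1 hw
    rw [hwp] at hw0
    obtain ⟨μp, hμp⟩ := hlift ⟨μ, hμ⟩
    refine ⟨hw0, AdjoinRoot.mk P μp, ?_⟩
    funext i
    have h1 : (((Bo *ᵥ zo) i - ⟨μ, hμ⟩ * (AA O *ᵥ zo) i : O) : L) =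
        (B *ᵥ fun i => (zo i : L)) i - μ * (AA L *ᵥ fun i => (zo i : L)) i := by
      have h6 := map_mulVec O.subtype Bo zo i
      rw [hBoL] at h6
      have h7 := map_mulVec O.subtype (AA O) zo i
      rw [map_AA] at h7
      have h8 : (((Bo *ᵥ zo) i : O) : L) = (B *ᵥ fun i => (zo i : L)) i := h6
      have h9 : (((AA O *ᵥ zo) i : O) : L) = (AA L *ᵥ fun i => (zo i : L)) i := h7
      rw [← h8, ← h9]
      rfl
    have h4 : φ ((Bo *ᵥ zo) i - ⟨μ, hμ⟩ * (AA O *ᵥ zo) i) =
        AdjoinRoot.mk (P ^ 2) ((B' *ᵥ zp) i - μp * (AA F[X] *ᵥ zp) i) := by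
      rw [map_sub, map_sub, map_mul, map_mul, map_mulVec, map_mulVec, map_mulVec, map_mulVec,
        hmapB, map_AA, map_AA, hμp]
      simp only [hzo]
    have h5 := hcon i
    have h6 := (key _ _ h4).1 (by
      rw [h1]
      exact h5)
    rw [map_sub, map_mul, map_mulVec, map_mulVec, map_AA, hzb, sub_eq_zero] at h6
    rw [h6]
    rfl

end SMP

theorem smp (hLDE : LDEStmt) (hRIP : RIPStmt) (hRII : RIIStmt) : SMPStmt := by
  intro F _ _ h2
  refine ⟨?_, ?_⟩
  · intro P hPm hP L _ O ι hc B hB hBO hd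
    obtain ⟨e, -⟩ := (hRIP F P hPm hP L O ι hc).2.2 2
    exact SMP.core h2 hLDE hc.loc P hPm hP e B hB hBO hd
  · intro L _ O ι hc B hB hBO hd
    obtain ⟨e, -⟩ := (hRII F L O ι hc).2.2 2
    exact SMP.core h2 hLDE hc.loc X monic_X irreducible_X e B hB hBO hd

end Pool.PRL
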