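import Pool.Agent.H75.PRL.S2
import Pool.Agent.H59.RZ.DN

/-!
# The Poonen-Rains law: local solubility at infinity
-/

set_option autoImplicit false

namespace Pool.PRL

open Polynomial Matrix Pool.AVR Pool.AVS Pool.RZ

namespace LI1

section coeffs

variable {F : Type} [Field F]

theorem pm (p q : F[X]) (m n k : ℕ) (hp : p.natDegree ≤ m) (hq : q.natDegree ≤ n)
    (hk : k = m + n) : (p * q).coeff k = p.coeff m * q.coeff n ∧ (p * q).natDegree ≤ k := by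
  subst hk
  exact ⟨coeff_mul_add_eq_of_natDegree_le hp hq, natDegree_mul_le_of_le hp hq⟩

theorem pp (p : F[X]) (m n k : ℕ) (hp : p.natDegree ≤ n) (hk : k = m * n) :
    (p ^ m).coeff k = p.coeff n ^ m ∧ (p ^ m).natDegree ≤ k := by
  subst hk
  exact ⟨coeff_pow_of_natDegree_le hp, natDegree_pow_le_of_le m hp⟩

theorem pn (r : ℕ) (k : ℕ) (p : F[X]) : ((r : F[X]) * p).coeff k = (r : F) * p.coeff k := by
  rw [← C_eq_natCast, coeff_C_mul]

theorem coeff_disc (n : ℕ) (f : F[X] × F[X] × F[X]) (hf : f ∈ Fam F n) :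
    (disc f.1 f.2.1 f.2.2).coeff (12 * n) =
      disc (top3 n f).1 (top3 n f).2.1 (top3 n f).2.2 := by
  obtain ⟨ha, hb, hc⟩ := hf
  set a := f.1
  set b := f.2.1
  set c := f.2.2
  have a2 := pp a 2 (2 * n) (4 * n) ha (by ring)
  have a3 := pp a 3 (2 * n) (6 * n) ha (by ring)
  have b2 := pp b 2 (4 * n) (8 * n) hb (by ring)
  have b3 := pp b 3 (4 * n) (12 * n) hb (by ring)
  have c2 := pp c 2 (6 * n) (12 * n) hc (by ring)
  have t1 := pm (a ^ 2) (b ^ 2) (4 * n) (8 * n) (12 * n) a2.2 b2.2 (by ring)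
  have t3 := pm (a ^ 3) c (6 * n) (6 * n) (12 * n) a3.2 hc (by ring)
  have t4 := pm a b (2 * n) (4 * n) (6 * n) ha hb (by ring)
  have t5 := pm (a * b) c (6 * n) (6 * n) (12 * n) t4.2 hc (by ring)
  have e : disc a b c = a ^ 2 * b ^ 2 - ((4 : ℕ) : F[X]) * b ^ 3 - ((4 : ℕ) : F[X]) * (a ^ 3 * c) +
      ((18 : ℕ) : F[X]) * (a * b * c) - ((27 : ℕ) : F[X]) * c ^ 2 := by
    unfold disc
    push_cast
    ring
  rw [e]
  simp only [coeff_add, coeff_sub, pn]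
  rw [t1.1, t3.1, t5.1, t4.1, a2.1, b2.1, b3.1, a3.1, c2.1]
  show _ = disc (a.coeff (2 * n)) (b.coeff (4 * n)) (c.coeff (6 * n))
  unfold disc
  push_cast
  ring

theorem fam_tw (n : ℕ) (f : F[X] × F[X] × F[X]) (hf : f ∈ Fam F n) (d : F[X]) (hd : d.Monic)
    (he : Even d.natDegree) :
    tw d f ∈ Fam F (n + d.natDegree / 2) ∧ top3 (n + d.natDegree / 2) (tw d f) = top3 n f := by
  obtain ⟨ha, hb, hc⟩ := hf
  obtain ⟨k, hk⟩ := he
  have hk2 : d.natDegree / 2 = k := by omega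
  rw [hk2]
  have h1 : d.coeff (2 * k) = 1 := by
    have := hd.coeff_natDegree
    rwa [show d.natDegree = 2 * k by omega] at this
  have hd1 : d.natDegree ≤ 2 * k := by omega
  have d2 := pp d 2 (2 * k) (4 * k) hd1 (by ring)
  have d3 := pp d 3 (2 * k) (6 * k) hd1 (by ring)
  have t1 := pm d f.1 (2 * k) (2 * n) (2 * (n + k)) hd1 ha (by ring)
  have t2 := pm (d ^ 2) f.2.1 (4 * k) (4 * n) (4 * (n + k)) d2.2 hb (by ring)
  have t3 := pm (d ^ 3) f.2.2 (6 * k) (6 * n) (6 * (n + k)) d3.2 hc (by ring)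
  refine ⟨⟨t1.2, t2.2, t3.2⟩, ?_⟩
  unfold top3 tw
  simp only
  rw [t1.1, t2.1, t3.1, d2.1, d3.1, h1]
  simp

/-- The discriminant at infinity. -/
theorem disc_inf [Finite F] (h2 : (2 : F) ≠ 0) (n : ℕ) (f : F[X] × F[X] × F[X])
    (hf : f ∈ Fam F n) (hNR : NR (top3 n f)) :
    disc ((kf f).1 / (RatFunc.X ^ n) ^ 2) ((kf f).2.1 / (RatFunc.X ^ n) ^ 4)
      ((kf f).2.2 / (RatFunc.X ^ n) ^ 6) / (RatFunc.X)⁻¹ ^ 2 ∉ Iinf F := by
  intro h
  have hc := coeff_disc n f hf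
  have hne := DN.disc_NR h2 hNR
  rw [← hc] at hne
  have hdeg : 12 * n ≤ (disc f.1 f.2.1 f.2.2).natDegree := le_natDegree_of_ne_zero hne
  have hD0 : disc f.1 f.2.1 f.2.2 ≠ 0 := by
    intro h0
    rw [h0] at hne
    simp at hne
  have hX : (RatFunc.X : RatFunc F) ≠ 0 := RatFunc.X_ne_zero
  have hXn : (RatFunc.X : RatFunc F) ^ n ≠ 0 := pow_ne_zero _ hX
  set x := disc ((kf f).1 / (RatFunc.X ^ n) ^ 2) ((kf f).2.1 / (RatFunc.X ^ n) ^ 4)
      ((kf f).2.2 / (RatFunc.X ^ n) ^ 6) / (RatFunc.X)⁻¹ ^ 2 with hx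
  have hrf : rf (disc f.1 f.2.1 f.2.2) = disc (kf f).1 (kf f).2.1 (kf f).2.2 :=
    Pool.AVR.H10DNF.disc_map (algebraMap F[X] (RatFunc F)) f.1 f.2.1 f.2.2
  have hxe : x * rf (X ^ (12 * n)) = rf (disc f.1 f.2.1 f.2.2 * X ^ 2) := by
    have e1 : rf (X ^ (12 * n) : F[X]) = ((RatFunc.X : RatFunc F) ^ n) ^ 12 := by
      show algebraMap F[X] (RatFunc F) (X ^ (12 * n)) = _
      rw [map_pow, RatFunc.algebraMap_X, ← pow_mul, mul_comm]
    have e2 : rf (disc f.1 f.2.1 f.2.2 * X ^ 2) =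
        disc (kf f).1 (kf f).2.1 (kf f).2.2 * (RatFunc.X : RatFunc F) ^ 2 := by
      show algebraMap F[X] (RatFunc F) _ = _
      rw [map_mul, map_pow, RatFunc.algebraMap_X]
      exact congrArg (· * (RatFunc.X : RatFunc F) ^ 2) hrf
    rw [e1, e2, hx]
    set τ := (RatFunc.X : RatFunc F) ^ n
    unfold disc
    field_simp
  have hr0 : rf (disc f.1 f.2.1 f.2.2 * X ^ 2) ≠ 0 := by
    show algebraMap F[X] (RatFunc F) _ ≠ 0
    rw [Ne, map_eq_zero_iff _ (RatFunc.algebraMap_injective F)]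
    exact mul_ne_zero hD0 (pow_ne_zero _ X_ne_zero)
  have hx0 : x ≠ 0 := by
    intro h0
    rw [h0, zero_mul] at hxe
    exact hr0 hxe.symm
  have hy0 : rf (X ^ (12 * n) : F[X]) ≠ 0 := by
    intro h0
    rw [h0, mul_zero] at hxe
    exact hr0 hxe.symm
  have hi := congrArg RatFunc.intDegree hxe
  rw [RatFunc.intDegree_mul hx0 hy0] at hi
  have i1 : (rf (X ^ (12 * n) : F[X])).intDegree = ((12 * n : ℕ) : ℤ) := by
    show (algebraMap F[X] (RatFunc F) _).intDegree = _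
    rw [RatFunc.intDegree_polynomial, natDegree_X_pow]
  have i2 : (rf (disc f.1 f.2.1 f.2.2 * X ^ 2)).intDegree =
      (((disc f.1 f.2.1 f.2.2).natDegree + 2 : ℕ) : ℤ) := by
    show (algebraMap F[X] (RatFunc F) _).intDegree = _
    rw [RatFunc.intDegree_polynomial, natDegree_mul hD0 (pow_ne_zero _ X_ne_zero),
      natDegree_X_pow]
  rw [i1, i2] at hi
  have h' : x.intDegree ≤ 0 := h
  push_cast at hi
  omega

end coeffs

end LI1

theorem li1 (hINF : INFStmt) (hLSU : LSUStmt) (hSCD : SCDStmt) (hNGH : NGHStmt)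
    (hCHH : CHHStmt) : LI1Stmt := by
  intro F _ _ h2 n f hf hNR d hd he L _ O ι hc h hco hN
  have hd0 : d ≠ 0 := hd.ne_zero
  obtain ⟨-, hS2, -⟩ := hSCD F d f hd0
  obtain ⟨hSn, hSc, hSl, -⟩ := hS2 h
  obtain ⟨hf', htop⟩ := LI1.fam_tw n f hf d hd he
  set n' := n + d.natDegree / 2 with hn'
  have hNR' : NR (top3 n' (tw d f)) := by
    rw [htop]
    exact hNR
  have hco' : IsCoprime (scd d h) (cubK (tw d f)) := hSc.2 hco
  have hN' : IsSquare (Algebra.norm (RatFunc F) (AdjoinRoot.mk (cubK (tw d f)) (scd d h))) := by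
    rw [hSn]
    exact hN
  obtain ⟨g, hg, hG, hB⟩ := hINF F h2 n' (tw d f) hf' hNR' (scd d h) hco' hN'
  obtain ⟨r, hr⟩ := hN'
  obtain ⟨hR, hdet, -⟩ := hNGH (RatFunc F) (kf (tw d f)).1 (kf (tw d f)).2.1 (kf (tw d f)).2.2
    (scd d h)
  rw [← hSl L ι]
  refine (hLSU F h2).2 L O ι hc (RatFunc.X ^ n') (kf (tw d f)).1 (kf (tw d f)).2.1
    (kf (tw d f)).2.2 (g.det * r) (scd d h) (gᵀ * g0 (tw d f) (scd d h) * g)
    (gᵀ * g1 (tw d f) (scd d h) * g) (pow_ne_zero _ RatFunc.X_ne_zero)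
    (hCHH _ _ _ _ _ _ _ _ hR) hG ?_ ?_ (LI1.disc_inf h2 n' (tw d f) hf' hNR')
  · rw [Matrix.det_mul, Matrix.det_mul, Matrix.det_transpose]
    have h1 : (g0 (tw d f) (scd d h)).det = -(r * r) := by
      rw [← hr]
      exact hdet
    rw [h1]
    ring
  · have h1 : ((RatFunc.X : RatFunc F) ^ n') ^ 2 = RatFunc.X ^ (2 * n') := by
      rw [← pow_mul, mul_comm]
    rw [h1]
    exact hB

end Pool.PRL
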